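import Pool.Agent.PFC.StmtsB1

/-!
Squad PFC, row STP: one step of the lifting of the multiplication.
-/

set_option autoImplicit false

namespace Pool.Agent.PFC.B1.H60

open MulOpposite

section
variable {R Γ P : Type} [CommRing R] [Ring Γ] [Algebra R Γ] [AddCommGroup P] [Module R P]

/-- the multiplication as a bilinear map -/
noncomputable def M (B : BiM R Γ P) (β : P →ₗ[R] P →ₗ[R] Γ × P) :
    (Γ × P) →ₗ[R] (Γ × P) →ₗ[R] Γ × P :=
  LinearMap.mk₂ R (B.mu β)
    (fun x x' y => by
      unfold BiM.mu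
      simp only [Prod.fst_add, Prod.snd_add, add_mul, map_add, LinearMap.add_apply]
      refine Prod.ext ?_ ?_ <;> simp only [Prod.fst_add, Prod.snd_add] <;> abel)
    (fun r x y => by
      unfold BiM.mu
      simp only [Prod.smul_fst, Prod.smul_snd, smul_mul_assoc, map_smul, LinearMap.smul_apply]
      refine Prod.ext ?_ ?_ <;>
        simp only [Prod.fst_add, Prod.snd_add, Prod.smul_fst, Prod.smul_snd, smul_add])
    (fun x y y' => by
      unfold BiM.mu
      simp only [Prod.fst_add, Prod.snd_add, mul_add, map_add, LinearMap.add_apply, op_add]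
      refine Prod.ext ?_ ?_ <;> simp only [Prod.fst_add, Prod.snd_add] <;> abel)
    (fun r x y => by
      unfold BiM.mu
      simp only [Prod.smul_fst, Prod.smul_snd, mul_smul_comm, map_smul, LinearMap.smul_apply,
        op_smul]
      refine Prod.ext ?_ ?_ <;>
        simp only [Prod.fst_add, Prod.snd_add, Prod.smul_fst, Prod.smul_snd, smul_add])

theorem M_apply (B : BiM R Γ P) (β : P →ₗ[R] P →ₗ[R] Γ × P) (x y : Γ × P) :
    M B β x y = B.mu β x y := rfl

/-- the associator through the bilinear map -/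
theorem as_eq (B : BiM R Γ P) (β : P →ₗ[R] P →ₗ[R] Γ × P) (x y z : Γ × P) :
    B.as β x y z = M B β (M B β x y) z - M B β x (M B β y z) := rfl

theorem M_change (B : BiM R Γ P) (β ν : P →ₗ[R] P →ₗ[R] Γ × P) (r : R) (x y : Γ × P) :
    M B (β + r • ν) x y = M B β x y + r • ν x.2 y.2 := by
  rw [M_apply, M_apply]
  unfold BiM.mu
  simp only [LinearMap.add_apply, LinearMap.smul_apply]
  abel

theorem as_change (B : BiM R Γ P) (β ν : P →ₗ[R] P →ₗ[R] Γ × P) (r : R) (x y z : Γ × P) :
    B.as (β + r • ν) x y z = B.as β x y z +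
      r • (M B β (ν x.2 y.2) z + ν (M B β x y).2 z.2 - M B β x (ν y.2 z.2) -
        ν x.2 (M B β y z).2) +
      (r * r) • (ν (ν x.2 y.2).2 z.2 - ν x.2 (ν y.2 z.2).2) := by
  rw [as_eq, as_eq]
  simp only [M_change, map_add, map_smul, LinearMap.add_apply, LinearMap.smul_apply,
    smul_add, smul_sub, mul_smul]
  abel

theorem as_add1 (B : BiM R Γ P) (β : P →ₗ[R] P →ₗ[R] Γ × P) (x x' y z : Γ × P) :
    B.as β (x + x') y z = B.as β x y z + B.as β x' y z := by
  simp only [as_eq, map_add, LinearMap.add_apply]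
  abel

theorem as_add2 (B : BiM R Γ P) (β : P →ₗ[R] P →ₗ[R] Γ × P) (x y y' z : Γ × P) :
    B.as β x (y + y') z = B.as β x y z + B.as β x y' z := by
  simp only [as_eq, map_add, LinearMap.add_apply]
  abel

theorem as_add3 (B : BiM R Γ P) (β : P →ₗ[R] P →ₗ[R] Γ × P) (x y z z' : Γ × P) :
    B.as β x y (z + z') = B.as β x y z + B.as β x y z' := by
  simp only [as_eq, map_add]
  abel

theorem as_smul1 (B : BiM R Γ P) (β : P →ₗ[R] P →ₗ[R] Γ × P) (r : R) (x y z : Γ × P) :
    B.as β (r • x) y z = r • B.as β x y z := by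
  simp only [as_eq, map_smul, LinearMap.smul_apply, smul_sub]

theorem as_smul2 (B : BiM R Γ P) (β : P →ₗ[R] P →ₗ[R] Γ × P) (r : R) (x y z : Γ × P) :
    B.as β x (r • y) z = r • B.as β x y z := by
  simp only [as_eq, map_smul, LinearMap.smul_apply, smul_sub]

theorem as_smul3 (B : BiM R Γ P) (β : P →ₗ[R] P →ₗ[R] Γ × P) (r : R) (x y z : Γ × P) :
    B.as β x y (r • z) = r • B.as β x y z := by
  simp only [as_eq, map_smul, smul_sub]

theorem la_smul (B : BiM R Γ P) (γ : Γ) (r : R) (x : Γ × P) :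
    B.la γ (r • x) = r • B.la γ x := by
  unfold BiM.la
  refine Prod.ext ?_ ?_ <;> simp only [Prod.smul_fst, Prod.smul_snd, mul_smul_comm, map_smul]

theorem ra_smul (B : BiM R Γ P) (γ : Γ) (r : R) (x : Γ × P) :
    B.ra (r • x) γ = r • B.ra x γ := by
  unfold BiM.ra
  refine Prod.ext ?_ ?_ <;> simp only [Prod.smul_fst, Prod.smul_snd, smul_mul_assoc, map_smul]

end

section
variable {F Γ A I P : Type} [Field F] [Ring Γ] [Algebra (PowerSeries F) Γ] [Ring A]
    [Algebra (PowerSeries F) A] [Fintype I] {c : FS (PowerSeries F) Γ I} {D : Res F Γ A I c}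
    [AddCommGroup P] [Module (PowerSeries F) P]

theorem X_smul_A (D : Res F Γ A I c) (a : A) : (PowerSeries.X : PowerSeries F) • a = 0 := by
  rw [Algebra.smul_def, D.hX, zero_mul]

/-- `qq` as a linear map -/
noncomputable def Q (L : PL F Γ A I P c D) : (Γ × P) →ₗ[PowerSeries F] A :=
  LinearMap.coprod D.j.toLinearMap L.q

theorem Q_apply (L : PL F Γ A I P c D) (x : Γ × P) : Q L x = L.qq x := rfl

theorem Q_mul (L : PL F Γ A I P c D) (β : P →ₗ[PowerSeries F] P →ₗ[PowerSeries F] Γ × P)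
    (hq : ∀ p p', L.qq (β p p') = L.q p * L.q p') (x y : Γ × P) :
    Q L (M L.toBiM β x y) = Q L x * Q L y := by
  rw [M_apply]
  unfold BiM.mu
  rw [map_add, Q_apply L (β x.2 y.2), hq, Q_apply, Q_apply, Q_apply]
  unfold PL.qq
  simp only [map_mul, map_add, L.q1, L.q2]
  noncomm_ring

theorem Q_la (L : PL F Γ A I P c D) (γ : Γ) (x : Γ × P) :
    Q L (L.toBiM.la γ x) = D.j γ * Q L x := by
  rw [Q_apply, Q_apply]
  unfold BiM.la PL.qq
  simp only [map_mul, L.q1, mul_add]

theorem Q_ra (L : PL F Γ A I P c D) (γ : Γ) (x : Γ × P) :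
    Q L (L.toBiM.ra x γ) = Q L x * D.j γ := by
  rw [Q_apply, Q_apply]
  unfold BiM.ra PL.qq
  simp only [map_mul, L.q2, add_mul]

theorem Q_surj (L : PL F Γ A I P c D) (a : A) : ∃ x, Q L x = a := by
  obtain ⟨γ, hγ⟩ := D.e1 a
  have h : D.e (a - D.e a) = 0 := by
    rw [map_sub, hγ, D.e2, sub_self]
  obtain ⟨x, hx⟩ := L.q4 _ h
  refine ⟨(γ, x), ?_⟩
  rw [Q_apply]
  unfold PL.qq
  simp only [hx, hγ]
  abel

theorem Q_ker (L : PL F Γ A I P c D) (x : Γ × P) (h : Q L x = 0) :
    ∃ y, x = (PowerSeries.X : PowerSeries F) • y := by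
  rw [Q_apply] at h
  unfold PL.qq at h
  have h1 : D.j x.1 = 0 := by
    have := congrArg D.e h
    rw [map_add, D.e2, L.q3, add_zero, map_zero] at this
    exact this
  rw [h1, zero_add] at h
  obtain ⟨γ, hγ⟩ := D.hj _ h1
  obtain ⟨y, hy⟩ := L.q5 _ h
  exact ⟨(γ, y), Prod.ext hγ hy⟩

end

theorem stp (hPen : PenStmt) (hLfb : LfbStmt) : StpStmt := by
  intro F Γ A I K P _ _ _ _ _ _ _ _ _ c D sep _ _ _ _ L β n hn hB hq has
  obtain ⟨p1, p2, p3, p4, p5, p6, p7, p8⟩ := hPen (PowerSeries F) Γ P L.toBiM β hB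
  have inj : ∀ u v : Γ × P,
      (PowerSeries.X : PowerSeries F) ^ n • u = (PowerSeries.X : PowerSeries F) ^ n • v → u = v :=
    fun u v h => smul_right_injective (Γ × P)
      (pow_ne_zero n (PowerSeries.X_ne_zero : (PowerSeries.X : PowerSeries F) ≠ 0)) h
  choose w hw using has
  have hw' : ∀ x y z u, L.toBiM.as β x y z = (PowerSeries.X : PowerSeries F) ^ n • u →
      w x y z = u := fun x y z u h => inj _ _ ((hw x y z).symm.trans h)
  -- multilinearity of `w`
  have wadd1 : ∀ x x' y z, w (x + x') y z = w x y z + w x' y z := fun x x' y z => hw' _ _ _ _ (by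
    rw [as_add1, hw x, hw x', smul_add])
  have wadd2 : ∀ x y y' z, w x (y + y') z = w x y z + w x y' z := fun x y y' z => hw' _ _ _ _ (by
    rw [as_add2, hw x, hw x, smul_add])
  have wadd3 : ∀ x y z z', w x y (z + z') = w x y z + w x y z' := fun x y z z' => hw' _ _ _ _ (by
    rw [as_add3, hw x, hw x, smul_add])
  have wsm1 : ∀ (r : PowerSeries F) x y z, w (r • x) y z = r • w x y z := fun r x y z =>
    hw' _ _ _ _ (by rw [as_smul1, hw x, smul_comm])
  have wsm2 : ∀ (r : PowerSeries F) x y z, w x (r • y) z = r • w x y z := fun r x y z =>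
    hw' _ _ _ _ (by rw [as_smul2, hw x, smul_comm])
  have wsm3 : ∀ (r : PowerSeries F) x y z, w x y (r • z) = r • w x y z := fun r x y z =>
    hw' _ _ _ _ (by rw [as_smul3, hw x, smul_comm])
  -- balance
  have w2 : ∀ γ x z, w x (γ, 0) z = 0 := fun γ x z => hw' _ _ _ _ (by rw [p2, smul_zero])
  have w3 : ∀ γ x y, w x y (γ, 0) = 0 := fun γ x y => hw' _ _ _ _ (by rw [p3, smul_zero])
  have w4 : ∀ γ x y z, w (L.toBiM.la γ x) y z = L.toBiM.la γ (w x y z) := fun γ x y z =>
    hw' _ _ _ _ (by rw [p4, hw x, la_smul])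
  have w5 : ∀ γ x y z, w (L.toBiM.ra x γ) y z = w x (L.toBiM.la γ y) z := fun γ x y z =>
    hw' _ _ _ _ (by rw [p5, hw x])
  have w6 : ∀ γ x y z, w x (L.toBiM.ra y γ) z = w x y (L.toBiM.la γ z) := fun γ x y z =>
    hw' _ _ _ _ (by rw [p6, hw x])
  have w7 : ∀ γ x y z, w x y (L.toBiM.ra z γ) = L.toBiM.ra (w x y z) γ := fun γ x y z =>
    hw' _ _ _ _ (by rw [p7, hw x, ra_smul])
  have w8 : ∀ x y z u, M L.toBiM β (w x y z) u + w x (M L.toBiM β y z) u +
      M L.toBiM β x (w y z u) = w (M L.toBiM β x y) z u + w x y (M L.toBiM β z u) := by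
    intro x y z u
    apply inj
    have h := p8 x y z u
    simp only [← M_apply] at h
    rw [hw x y z, hw x _ u, hw y z u, hw _ z u, hw x y _] at h
    simp only [map_smul, LinearMap.smul_apply] at h
    rw [smul_add, smul_add, smul_add]
    exact h
  -- reduction
  choose lift hl using Q_surj L
  have wd : ∀ x x' y z, Q L x = Q L x' → Q L (w x y z) = Q L (w x' y z) := by
    intro x x' y z h
    obtain ⟨u, hu⟩ := Q_ker L (x - x') (by rw [map_sub, h, sub_self])
    have e : x = x' + (PowerSeries.X : PowerSeries F) • u := by rw [← hu]; abel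
    rw [e, wadd1, wsm1, map_add, map_smul, X_smul_A D, add_zero]
  obtain ⟨W, hW⟩ : ∃ W : (Γ × P) → (Γ × P) → A →+ A, ∀ y z x, W y z (Q L x) = Q L (w x y z) := by
    refine ⟨fun y z => AddMonoidHom.mk' (fun a => Q L (w (lift a) y z)) ?_, ?_⟩
    · intro a b
      rw [wd (lift (a + b)) (lift a + lift b) y z (by rw [map_add, hl, hl, hl]), wadd1, map_add]
    · intro y z x
      exact wd _ _ _ _ (hl _)
  have W2 : ∀ y y' z a, W (y + y') z a = W y z a + W y' z a := by
    intro y y' z a
    rw [← hl a, hW, hW, hW, wadd2, map_add]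
  have W3 : ∀ y z z' a, W y (z + z') a = W y z a + W y z' a := by
    intro y z z' a
    rw [← hl a, hW, hW, hW, wadd3, map_add]
  have Ws2 : ∀ (r : PowerSeries F) y z a, W (r • y) z a = r • W y z a := by
    intro r y z a
    rw [← hl a, hW, hW, wsm2, map_smul]
  have Ws3 : ∀ (r : PowerSeries F) y z a, W y (r • z) a = r • W y z a := by
    intro r y z a
    rw [← hl a, hW, hW, wsm3, map_smul]
  have Wl : ∀ γ y z a, W y z (D.j γ * a) = D.j γ * W y z a := by
    intro γ y z a
    rw [← hl a, ← Q_la, hW, hW, w4, Q_la]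
  have Wr : ∀ γ y z a, W y z (a * D.j γ) = W (L.toBiM.la γ y) z a := by
    intro γ y z a
    rw [← hl a, ← Q_ra, hW, hW, w5]
  have Wm : ∀ γ y z a, W (L.toBiM.ra y γ) z a = W y (L.toBiM.la γ z) a := by
    intro γ y z a
    rw [← hl a, hW, hW, w6]
  have We : ∀ γ y z a, W y (L.toBiM.ra z γ) a = W y z a * D.j γ := by
    intro γ y z a
    rw [← hl a, hW, hW, w7, Q_ra]
  have Wn : ∀ y z a, W y z a = W (0, y.2) (0, z.2) a := by
    intro y z a
    have e1 : y = (y.1, 0) + (0, y.2) := by simp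
    have e2 : z = (z.1, 0) + (0, z.2) := by simp
    rw [← hl a, hW, hW]
    conv_lhs => rw [e1, e2]
    rw [wadd2, wadd3, wadd3, w2, w2, w3, zero_add, zero_add, zero_add]
  have Wbal : ∀ y z a, ∑ k, a * sep.u k * W y z (sep.v k) =
      ∑ k, sep.u k * W y z (sep.v k * a) := by
    intro y z a
    have h := sep.bal A (AddMonoidHom.mk' (fun u => (AddMonoidHom.mulLeft u).comp (W y z))
      (fun u u' => by
        ext v
        simp only [AddMonoidHom.comp_apply, AddMonoidHom.coe_mulLeft, AddMonoidHom.add_apply,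
          add_mul])) (by
      intro x γ v
      show x * D.j γ * W y z v = x * W y z (D.j γ * v)
      rw [Wl, mul_assoc]) a
    exact h
  -- the cochain
  obtain ⟨ν0, hν0⟩ : ∃ ν0 : P →ₗ[PowerSeries F] P →ₗ[PowerSeries F] A, ∀ x y : Γ × P,
      ν0 x.2 y.2 = ∑ k, sep.u k * W x y (sep.v k) := by
    refine ⟨LinearMap.mk₂ (PowerSeries F)
      (fun p p' => ∑ k, sep.u k * W (0, p) (0, p') (sep.v k)) ?_ ?_ ?_ ?_, ?_⟩
    · intro p q p'
      rw [← Finset.sum_add_distrib]
      refine Finset.sum_congr rfl fun k _ => ?_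
      have e : ((0 : Γ), p + q) = (0, p) + (0, q) := by simp
      rw [e, W2, mul_add]
    · intro r p p'
      rw [Finset.smul_sum]
      refine Finset.sum_congr rfl fun k _ => ?_
      have e : ((0 : Γ), r • p) = r • ((0 : Γ), p) := by simp
      rw [e, Ws2, mul_smul_comm]
    · intro p p' q
      rw [← Finset.sum_add_distrib]
      refine Finset.sum_congr rfl fun k _ => ?_
      have e : ((0 : Γ), p' + q) = (0, p') + (0, q) := by simp
      rw [e, W3, mul_add]
    · intro r p p'
      rw [Finset.smul_sum]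
      refine Finset.sum_congr rfl fun k _ => ?_
      have e : ((0 : Γ), r • p') = r • ((0 : Γ), p') := by simp
      rw [e, Ws3, mul_smul_comm]
    · intro x y
      show ∑ k, sep.u k * W (0, x.2) (0, y.2) (sep.v k) = _
      refine Finset.sum_congr rfl fun k _ => ?_
      rw [← Wn]
  obtain ⟨ν, hν, hνq⟩ := hLfb F Γ A I P c D L ν0
    (by
      intro γ p p'
      have h1 := hν0 (L.toBiM.la γ (0, p)) (0, p')
      have h2 := hν0 (0, p) (0, p')
      change ν0 (L.lm γ p) p' = _ at h1
      change ν0 p p' = _ at h2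
      rw [h1, h2, Finset.mul_sum]
      simp only [← Wr]
      rw [← Wbal]
      exact Finset.sum_congr rfl fun k _ => mul_assoc _ _ _)
    (by
      intro γ p p'
      have h1 := hν0 (L.toBiM.ra (0, p) γ) (0, p')
      have h2 := hν0 (0, p) (L.toBiM.la γ (0, p'))
      change ν0 (L.rm (op γ) p) p' = _ at h1
      change ν0 p (L.lm γ p') = _ at h2
      rw [h1, h2]
      simp only [Wm])
    (by
      intro γ p p'
      have h1 := hν0 (0, p) (L.toBiM.ra (0, p') γ)
      have h2 := hν0 (0, p) (0, p')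
      change ν0 p (L.rm (op γ) p') = _ at h1
      change ν0 p p' = _ at h2
      rw [h1, h2, Finset.sum_mul]
      simp only [We, mul_assoc])
  refine ⟨ν, hν, fun x y z => ?_⟩
  have key : Q L (w x y z + (M L.toBiM β (ν x.2 y.2) z + ν (M L.toBiM β x y).2 z.2 -
      M L.toBiM β x (ν y.2 z.2) - ν x.2 (M L.toBiM β y z).2)) = 0 := by
    have hν' : ∀ a b : Γ × P, Q L (ν a.2 b.2) = ∑ k, sep.u k * W a b (sep.v k) := by
      intro a b
      rw [Q_apply, hνq, hν0]
    rw [map_add, map_sub, map_sub, map_add, Q_mul L β hq, Q_mul L β hq, hν', hν', hν', hν']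
    have pent' : ∀ v, W x y (Q L v) * Q L z + W (M L.toBiM β x y) z (Q L v) +
        Q L v * Q L (w x y z) =
        W y z (Q L v * Q L x) + W x (M L.toBiM β y z) (Q L v) := by
      intro v
      have h := congrArg (Q L) (w8 v x y z)
      simp only [map_add, Q_mul L β hq] at h
      rw [← Q_mul L β hq v x, hW, hW, hW, hW]
      exact h
    have pent : ∀ k, W x y (sep.v k) * Q L z + W (M L.toBiM β x y) z (sep.v k) +
        sep.v k * Q L (w x y z) =
        W y z (sep.v k * Q L x) + W x (M L.toBiM β y z) (sep.v k) := by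
      intro k
      have h := pent' (lift (sep.v k))
      rwa [hl] at h
    have h := Finset.sum_congr (rfl : (Finset.univ : Finset K) = Finset.univ)
      (fun k _ => congrArg (fun a => sep.u k * a) (pent k))
    simp only [mul_add, Finset.sum_add_distrib, ← mul_assoc] at h
    rw [← Finset.sum_mul, ← Finset.sum_mul, sep.one, one_mul, ← Wbal] at h
    rw [Finset.mul_sum]
    simp only [← mul_assoc]
    rw [← sub_eq_zero] at h
    rw [← h]
    abel
  obtain ⟨y', hy'⟩ := Q_ker L _ key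
  refine ⟨y' + (PowerSeries.X : PowerSeries F) ^ (n - 1) •
    (ν (ν x.2 y.2).2 z.2 - ν x.2 (ν y.2 z.2).2), ?_⟩
  rw [as_change, hw x y z, ← smul_add, hy', smul_add, smul_smul, smul_smul, ← pow_succ, ← pow_add,
    ← pow_add]
  congr 3
  omega

end Pool.Agent.PFC.B1.H60
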