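import Pool.Agent.PFC.StmtsB1

namespace Hhelper1

open Pool.Agent.PFC.B1

theorem COS : CosStmt := by
  intro R Γ A I k S _ _ _ _ _ _ _ _ _ _ c sp σ
  refine ⟨
    { toFun := fun s => ⟨fun x => σ.ρ (sp.pr x) s, fun x y => by
          show σ.ρ (sp.pr (x + y)) s = σ.ρ (sp.pr x) s + σ.ρ (sp.pr y) s
          rw [map_add, map_add, LinearMap.add_apply], fun γ x => by
          show σ.ρ (sp.pr (sp.j γ * x)) s = σ.ρ γ (σ.ρ (sp.pr x) s)
          rw [sp.pr_l, map_mul, Module.End.mul_apply]⟩
      map_add' := fun s s' => by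
        apply Subtype.ext; funext x
        exact map_add (σ.ρ (sp.pr x)) s s'
      map_smul' := fun r s => by
        apply Subtype.ext; funext x
        exact map_smul (σ.ρ (sp.pr x)) r s },
    { toFun := fun f => f.1 1
      map_add' := fun f g => rfl
      map_smul' := fun r f => rfl }, ?_, ?_, fun f => rfl, ?_⟩
  · intro γ s
    apply Subtype.ext; funext x
    change σ.ρ (sp.pr x) (σ.ρ γ s) = σ.ρ (sp.pr (x * sp.j γ)) s
    rw [sp.pr_r, map_mul, Module.End.mul_apply]
  · intro γ f
    change f.1 (1 * sp.j γ) = σ.ρ γ (f.1 1)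
    rw [one_mul]
    have h := f.2.2 γ 1
    rw [mul_one] at h
    exact h
  · apply LinearMap.ext
    intro s
    change σ.ρ (sp.pr 1) s = s
    have h : sp.pr 1 = 1 := by
      have h1 := sp.pr_j 1
      rw [map_one] at h1
      exact h1
    rw [h, map_one]
    rfl

end Hhelper1
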