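import Pool.Agent.PFC.StmtsB1

/-!
Squad PFC, row HPL of part B1: Higman projectivity modulo `t` lifts.
-/

namespace Pool.Agent.PFC.B1.H10

theorem hpl (hT : TrhStmt) (hU : UniStmt) : HplStmt := by
  intro F A I M _ _ _ _ _ _ _ c ρ a ha
  have hu : IsHom ρ ρ (c.tr ρ ρ a) := hT.1 (PowerSeries F) A I (PowerSeries F) M M c ρ ρ a
  have hb : Function.Bijective (c.tr ρ ρ a) := hU F M (c.tr ρ ρ a) ha
  let e : M ≃ₗ[PowerSeries F] M := LinearEquiv.ofBijective (c.tr ρ ρ a) hb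
  have he : ∀ x, e x = c.tr ρ ρ a x := fun x => rfl
  have hs : IsHom ρ ρ (e.symm : M →ₗ[PowerSeries F] M) := by
    intro y x
    apply e.injective
    rw [LinearEquiv.coe_coe, LinearEquiv.apply_symm_apply, he, hu y (e.symm x), ← he,
      LinearEquiv.apply_symm_apply]
  have hid : IsHom ρ ρ (LinearMap.id : M →ₗ[PowerSeries F] M) := fun y x => rfl
  refine ⟨a ∘ₗ (e.symm : M →ₗ[PowerSeries F] M), ?_⟩
  have h := hT.2 (PowerSeries F) A I (PowerSeries F) M M M M c ρ ρ ρ ρ a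
    (e.symm : M →ₗ[PowerSeries F] M) LinearMap.id hs hid
  rw [LinearMap.id_comp, LinearMap.id_comp] at h
  rw [← h]
  apply LinearMap.ext
  intro x
  rw [LinearMap.comp_apply, LinearMap.id_apply]
  exact e.apply_symm_apply x

end Pool.Agent.PFC.B1.H10
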