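import Pool.Agent.PFC.StmtsB1

/-!
Squad PFC, row PIN: Higman projective representations are projective and injective relative to
`k`, and retracts of HP are HP.
-/

set_option autoImplicit false

namespace Pool.Agent.PFC.B1.H49

open Pool.Agent.PFC.B1

theorem pin (hT : TrhStmt) : PinStmt := by
  obtain ⟨hT1, hT2⟩ := hT
  have hid : ∀ (R A k M : Type) [CommRing R] [Ring A] [Algebra R A] [CommRing k] [Algebra R k]
      [AddCommGroup M] [Module k M] (ρ : Rp R A k M), IsHom ρ ρ LinearMap.id :=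
    fun _ _ _ _ _ _ _ _ _ _ _ ρ a x => rfl
  constructor
  · intro R A I k M N X _ _ _ _ _ _ _ _ _ _ _ _ c ρ σ τ hρ
    obtain ⟨a, ha⟩ := hρ
    constructor
    · intro p s f hp hps hf
      refine ⟨c.tr ρ τ (s ∘ₗ f ∘ₗ a), hT1 R A I k M X c ρ τ _, ?_⟩
      have h1 := hT2 R A I k M X M N c ρ τ ρ σ (s ∘ₗ f ∘ₗ a) LinearMap.id p
        (hid R A k M ρ) hp
      rw [LinearMap.comp_id, LinearMap.comp_id] at h1
      have h2 : p ∘ₗ s ∘ₗ f ∘ₗ a = f ∘ₗ a := by
        rw [← LinearMap.comp_assoc, hps, LinearMap.id_comp]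
      rw [h2] at h1
      have h3 := hT2 R A I k M M M N c ρ ρ ρ σ a LinearMap.id f (hid R A k M ρ) hf
      rw [LinearMap.comp_id, LinearMap.comp_id, ha, LinearMap.comp_id] at h3
      rw [h1, ← h3]
    · intro i r f hi hri hf
      refine ⟨c.tr τ ρ (a ∘ₗ f ∘ₗ r), hT1 R A I k X M c τ ρ _, ?_⟩
      have h1 := hT2 R A I k X M N M c τ ρ σ ρ (a ∘ₗ f ∘ₗ r) i LinearMap.id
        hi (hid R A k M ρ)
      rw [LinearMap.id_comp, LinearMap.id_comp] at h1
      have h2 : (a ∘ₗ f ∘ₗ r) ∘ₗ i = a ∘ₗ f := by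
        rw [LinearMap.comp_assoc, LinearMap.comp_assoc, hri, LinearMap.comp_id]
      rw [h2] at h1
      have h3 := hT2 R A I k M M N M c ρ ρ σ ρ a f LinearMap.id hf (hid R A k M ρ)
      rw [LinearMap.id_comp, LinearMap.id_comp, ha, LinearMap.id_comp] at h3
      rw [h1, ← h3]
  · intro R A I k M N _ _ _ _ _ _ _ _ _ _ c ρ σ i p hi hp hpi hρ
    obtain ⟨a, ha⟩ := hρ
    refine ⟨p ∘ₗ a ∘ₗ i, ?_⟩
    have h1 := hT2 R A I k M M N N c ρ ρ σ σ a i p hi hp
    rw [ha] at h1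
    rw [← h1, LinearMap.id_comp, hpi]

end Pool.Agent.PFC.B1.H49
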