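import Pool.Agent.PFC.StmtsB1

/-!
Squad PFC, row QEX: the exact sequence `0 → T → Coind T → QQ T → 0`.
-/

set_option autoImplicit false

namespace Pool.Agent.PFC.B1.H49

open Pool.Agent.PFC.B1

theorem qex : QexStmt := by
  intro R Γ A k T _ _ _ _ _ _ _ _ _ j τ
  have hres : ∀ γ (x : T), (τ.res j).ρ γ x = τ.ρ (j γ) x := fun _ _ => rfl
  let ι : T →ₗ[k] Co j (τ.res j) :=
    { toFun := fun t => ⟨fun x => τ.ρ x t,
        fun x y => by
          show τ.ρ (x + y) t = τ.ρ x t + τ.ρ y t
          rw [map_add]; rfl,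
        fun γ x => by
          show τ.ρ (j γ * x) t = τ.ρ (j γ) (τ.ρ x t)
          rw [map_mul]; rfl⟩
      map_add' := fun s t => by
        apply Subtype.ext; funext x
        exact map_add (τ.ρ x) s t
      map_smul' := fun c t => by
        apply Subtype.ext; funext x
        exact map_smul (τ.ρ x) c t }
  let π : Co j (τ.res j) →ₗ[k] QQ j τ :=
    { toFun := fun f => ⟨fun x => f.1 x - τ.ρ x (f.1 1),
        fun x y => by
          show f.1 (x + y) - τ.ρ (x + y) (f.1 1) =
            (f.1 x - τ.ρ x (f.1 1)) + (f.1 y - τ.ρ y (f.1 1))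
          rw [f.2.1, map_add, LinearMap.add_apply]; abel,
        fun γ x => by
          show f.1 (j γ * x) - τ.ρ (j γ * x) (f.1 1) = τ.ρ (j γ) (f.1 x - τ.ρ x (f.1 1))
          rw [f.2.2, map_mul, map_sub]; rfl,
        by
          show f.1 1 - τ.ρ 1 (f.1 1) = 0
          rw [map_one]; exact sub_self _⟩
      map_add' := fun f g => by
        apply Subtype.ext; funext x
        show (f.1 x + g.1 x) - τ.ρ x (f.1 1 + g.1 1) =
          (f.1 x - τ.ρ x (f.1 1)) + (g.1 x - τ.ρ x (g.1 1))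
        rw [map_add]; abel
      map_smul' := fun c f => by
        apply Subtype.ext; funext x
        show (c • f.1 x) - τ.ρ x (c • f.1 1) = c • (f.1 x - τ.ρ x (f.1 1))
        rw [map_smul, smul_sub] }
  let s : QQ j τ →ₗ[k] Co j (τ.res j) :=
    { toFun := fun f => ⟨f.1, f.2.1, fun γ x => f.2.2.1 γ x⟩
      map_add' := fun f g => rfl
      map_smul' := fun c f => rfl }
  refine ⟨ι, π, s, ?_, ?_, fun t x => rfl, fun f x => rfl, fun f x => rfl, ?_, ?_, ?_⟩
  · intro a t
    apply Subtype.ext; funext x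
    show τ.ρ x (τ.ρ a t) = τ.ρ (x * a) t
    rw [map_mul]; rfl
  · intro a f
    apply Subtype.ext; funext x
    show f.1 (x * a) - τ.ρ x (f.1 (1 * a)) =
      (f.1 (x * a) - τ.ρ (x * a) (f.1 1)) - τ.ρ x (f.1 a - τ.ρ a (f.1 1))
    rw [one_mul, map_mul, map_sub, Module.End.mul_apply]; abel
  · intro t t' h
    have h1 : (ι t).1 1 = (ι t').1 1 := by rw [h]
    have h2 : τ.ρ 1 t = τ.ρ 1 t' := h1
    rw [map_one] at h2
    exact h2
  · apply LinearMap.ext; intro f
    apply Subtype.ext; funext x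
    show f.1 x - τ.ρ x (f.1 1) = f.1 x
    rw [f.2.2.2, map_zero, sub_zero]
  · ext f
    rw [LinearMap.mem_ker, LinearMap.mem_range]
    constructor
    · intro h
      refine ⟨f.1 1, ?_⟩
      apply Subtype.ext; funext x
      have h1 : (π f).1 x = 0 := by rw [h]; rfl
      have h2 : f.1 x - τ.ρ x (f.1 1) = 0 := h1
      show τ.ρ x (f.1 1) = f.1 x
      exact (sub_eq_zero.mp h2).symm
    · rintro ⟨t, rfl⟩
      apply Subtype.ext; funext x
      show τ.ρ x t - τ.ρ x (τ.ρ 1 t) = 0
      rw [map_one]; exact sub_self _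

end Pool.Agent.PFC.B1.H49
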