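import Pool.Agent.PFC.StmtsB1

/-!
Squad PFC, row QHR: `QQ T` is Higman projective for lattices `T`.
-/

set_option autoImplicit false

namespace Pool.Agent.PFC.B1.H60

section
variable {R Γ A k T : Type} [CommRing R] [Ring Γ] [Algebra R Γ] [Ring A] [Algebra R A]
  [CommRing k] [Algebra R k] [AddCommGroup T] [Module k T]

/-- the operator `g ↦ z (g ∘ b)` on `QQ` -/
def opz (j : Γ →ₐ[R] A) (τ : Rp R A k T) (z : A) (b : A →ₗ[R] A)
    (h1 : ∀ γ x, b (j γ * x) = j γ * b x) (_h0 : b 1 = 0) : QQ j τ →ₗ[k] QQ j τ where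
  toFun g := ⟨fun x => g.1 (b (x * z)) - τ.ρ x (g.1 (b z)), by
    refine ⟨fun x y => ?_, fun γ x => ?_, ?_⟩
    · show g.1 (b ((x + y) * z)) - τ.ρ (x + y) (g.1 (b z)) =
        (g.1 (b (x * z)) - τ.ρ x (g.1 (b z))) + (g.1 (b (y * z)) - τ.ρ y (g.1 (b z)))
      rw [add_mul, map_add, g.2.1, map_add, LinearMap.add_apply]
      abel
    · show g.1 (b (j γ * x * z)) - τ.ρ (j γ * x) (g.1 (b z)) =
        τ.ρ (j γ) (g.1 (b (x * z)) - τ.ρ x (g.1 (b z)))
      rw [mul_assoc, h1, g.2.2.1, map_mul τ.ρ, map_sub]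
      rfl
    · show g.1 (b (1 * z)) - τ.ρ 1 (g.1 (b z)) = 0
      rw [one_mul, map_one]
      exact sub_self _⟩
  map_add' f g := by
    apply Subtype.ext
    funext x
    show (f.1 (b (x * z)) + g.1 (b (x * z))) - τ.ρ x (f.1 (b z) + g.1 (b z)) =
      (f.1 (b (x * z)) - τ.ρ x (f.1 (b z))) + (g.1 (b (x * z)) - τ.ρ x (g.1 (b z)))
    rw [map_add]
    abel
  map_smul' r f := by
    apply Subtype.ext
    funext x
    show (r • f.1 (b (x * z))) - τ.ρ x (r • f.1 (b z)) =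
      r • (f.1 (b (x * z)) - τ.ρ x (f.1 (b z)))
    rw [map_smul, smul_sub]

end

section
variable {F Γ A T : Type} [Field F] [Ring Γ] [Algebra (PowerSeries F) Γ] [Ring A]
  [Algebra (PowerSeries F) A] [Module.Finite (PowerSeries F) A]
  [AddCommGroup T] [Module (PowerSeries F) T] [Module.Finite (PowerSeries F) T]

/-- elements of `QQ` are linear maps -/
def qlin (j : Γ →ₐ[PowerSeries F] A) (τ : Rp (PowerSeries F) A (PowerSeries F) T) :
    QQ j τ →ₗ[PowerSeries F] (A →ₗ[PowerSeries F] T) where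
  toFun g :=
    { toFun := g.1
      map_add' := g.2.1
      map_smul' := fun r x => by
        have h := g.2.2.1 (algebraMap (PowerSeries F) Γ r) x
        rw [j.commutes] at h
        rw [Algebra.smul_def, h]
        exact τ.sc r _ }
  map_add' _ _ := rfl
  map_smul' _ _ := rfl

theorem finite_QQ [Module.Free (PowerSeries F) A] (j : Γ →ₐ[PowerSeries F] A)
    (τ : Rp (PowerSeries F) A (PowerSeries F) T) : Module.Finite (PowerSeries F) (QQ j τ) := by
  have hinj : Function.Injective (qlin j τ) := by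
    intro f g h
    apply Subtype.ext
    funext x
    exact congrArg (fun l : A →ₗ[PowerSeries F] T => l x) h
  exact Module.Finite.of_injective (qlin j τ) hinj

end

theorem qhr (hZid : ZidStmt) (hHpl : HplStmt) : QhrStmt := by
  intro F Γ Γ0 A A' I I0 J' K T _ _ _ _ _ _ _ _ _ _ _ _ _ _ _ c c0 f sp0 sep D _ _ _ _ τ
  obtain ⟨z, b, hb, hb1, hz⟩ := hZid F Γ Γ0 A A' I I0 J' K c c0 f sp0 sep D
  have := finite_QQ D.sp.j τ
  refine hHpl F A' J' (QQ D.sp.j τ) D.d (qqRp D.sp.j τ) (opz D.sp.j τ z b hb hb1) fun g => ?_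
  have h := hz (PowerSeries F) T τ (opz D.sp.j τ z b hb hb1) (fun _ _ => rfl) g
  have inj : ∀ u v : T,
      (PowerSeries.X : PowerSeries F) • u = (PowerSeries.X : PowerSeries F) • v → u = v :=
    fun u v h => smul_right_injective T
      (PowerSeries.X_ne_zero : (PowerSeries.X : PowerSeries F) ≠ 0) h
  obtain ⟨u, hu⟩ : ∃ u : QQ D.sp.j τ, u =
      D.d.tr (qqRp D.sp.j τ) (qqRp D.sp.j τ) (opz D.sp.j τ z b hb hb1) g - g := ⟨_, rfl⟩
  have h' : ∀ x, ∃ y, u.1 x = (PowerSeries.X : PowerSeries F) • y := by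
    intro x
    obtain ⟨y, hy⟩ := h x
    refine ⟨y, ?_⟩
    rw [hu]
    exact hy
  choose y hy using h'
  refine ⟨⟨y, fun x x' => inj _ _ ?_, fun γ x => inj _ _ ?_, inj _ _ ?_⟩, ?_⟩
  · rw [smul_add, ← hy, ← hy, ← hy, u.2.1]
  · rw [← map_smul, ← hy, ← hy, u.2.2.1]
  · rw [← hy, u.2.2.2, smul_zero]
  · rw [← hu]
    apply Subtype.ext
    funext x
    exact hy x

end Pool.Agent.PFC.B1.H60
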