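import Pool.Agent.PFC.StmtsB1

/-!
Squad PFC, part B1, row RES (helper15): restriction to `Γ` preserves Higman projectivity.
-/

namespace Pool.Agent.PFC.B1.H15

open Finset

/-- the operator `b0 x = lam (pr x) + ∑ l, a (x * j b_l) * j b'_l` -/
private noncomputable def b0 {R Γ A I : Type} [CommRing R] [Ring Γ] [Algebra R Γ] [Ring A]
    [Algebra R A] [Fintype I] (c : FS R Γ I) (sp : Split c A) : A →ₗ[R] A where
  toFun := fun x => c.lam (sp.pr x) • (1 : A) + ∑ l, sp.a (x * sp.j (c.b l)) * sp.j (c.b' l)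
  map_add' := fun x y => by
    simp only [map_add, add_mul, add_smul, sum_add_distrib]
    abel
  map_smul' := fun r x => by
    simp only [map_smul, smul_mul_assoc, smul_eq_mul, mul_smul, RingHom.id_apply, smul_add,
      Finset.smul_sum]

private theorem b0_apply {R Γ A I : Type} [CommRing R] [Ring Γ] [Algebra R Γ] [Ring A]
    [Algebra R A] [Fintype I] (c : FS R Γ I) (sp : Split c A) (x : A) :
    b0 c sp x = c.lam (sp.pr x) • (1 : A) + ∑ l, sp.a (x * sp.j (c.b l)) * sp.j (c.b' l) := rfl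

private theorem b0_sum {R Γ A I : Type} [CommRing R] [Ring Γ] [Algebra R Γ] [Ring A]
    [Algebra R A] [Fintype I] (c : FS R Γ I) (sp : Split c A) (x : A) :
    ∑ i, sp.j (c.b i) * b0 c sp (sp.j (c.b' i) * x) = x := by
  have h1 : ∀ i, sp.j (c.b i) * b0 c sp (sp.j (c.b' i) * x) =
      sp.j (c.lam (c.b' i * sp.pr x) • c.b i) +
        ∑ l, sp.j (c.b i) * sp.a (sp.j (c.b' i) * x * sp.j (c.b l)) * sp.j (c.b' l) := by
    intro i
    rw [b0_apply, mul_add, sp.pr_l, Finset.mul_sum, map_smul, mul_smul_comm, mul_one]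
    congr 1
    exact Finset.sum_congr rfl fun l _ => (mul_assoc _ _ _).symm
  rw [Finset.sum_congr rfl fun i _ => h1 i, Finset.sum_add_distrib, sp.a_id, ← map_sum, c.h1]
  abel

/-- RES. -/
theorem res (cas : CasStmt) : ResStmt := by
  intro R Γ A I J k T _ _ _ _ _ _ _ _ _ _ _ c d sp τ hτ
  obtain ⟨α, hα⟩ := hτ
  letI : Module R T := Module.compHom T (algebraMap R k)
  have hsm : ∀ (r : R) (t : T), r • t = algebraMap R k r • t := fun r t => rfl
  have hr : ∀ (r : R) (x : A) (t : T), τ.ρ (r • x) t = r • τ.ρ x t := by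
    intro r x t
    rw [Algebra.smul_def, map_mul, Module.End.mul_apply, τ.sc, hsm]
  have hαr : ∀ (r : R) (t : T), α (r • t) = r • α t := by
    intro r t
    rw [hsm, map_smul, hsm]
  have hρr : ∀ (r : R) (x : A) (t : T), τ.ρ x (r • t) = r • τ.ρ x t := by
    intro r x t
    rw [hsm, map_smul, hsm]
  refine ⟨∑ m, (τ.ρ (b0 c sp (d.b m))) ∘ₗ α ∘ₗ (τ.ρ (d.b' m)), ?_⟩
  apply LinearMap.ext
  intro t
  have key : ∀ i, ∑ m, τ.ρ (sp.j (c.b i) * b0 c sp (sp.j (c.b' i) * d.b m)) (α (τ.ρ (d.b' m) t)) =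
      ∑ m, τ.ρ (sp.j (c.b i) * b0 c sp (d.b m)) (α (τ.ρ (d.b' m * sp.j (c.b' i)) t)) := by
    intro i
    let B : A →ₗ[R] A →ₗ[R] T := LinearMap.mk₂ R
      (fun x y => τ.ρ (sp.j (c.b i) * b0 c sp x) (α (τ.ρ y t)))
      (fun x x' y => by rw [map_add, mul_add, map_add, LinearMap.add_apply])
      (fun r x y => by rw [map_smul, mul_smul_comm, hr])
      (fun x y y' => by rw [map_add, LinearMap.add_apply, map_add, map_add])
      (fun r x y => by rw [hr, hαr, hρr])
    have h := cas R A J T d B (sp.j (c.b' i))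
    exact h
  have hid : ∑ m, τ.ρ (d.b m) (α (τ.ρ (d.b' m) t)) = t := by
    have h := LinearMap.congr_fun hα t
    simpa [FS.tr, LinearMap.sum_apply] using h
  have goal1 : (c.tr (τ.res sp.j) (τ.res sp.j)
      (∑ m, (τ.ρ (b0 c sp (d.b m))) ∘ₗ α ∘ₗ (τ.ρ (d.b' m)))) t =
      ∑ i, ∑ m, τ.ρ (sp.j (c.b i) * b0 c sp (d.b m)) (α (τ.ρ (d.b' m * sp.j (c.b' i)) t)) := by
    simp only [FS.tr, LinearMap.sum_apply, LinearMap.comp_apply]
    refine Finset.sum_congr rfl fun i _ => ?_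
    rw [map_sum]
    refine Finset.sum_congr rfl fun m _ => ?_
    rw [map_mul, map_mul, Module.End.mul_apply, Module.End.mul_apply]
    rfl
  rw [goal1, LinearMap.id_apply, ← Finset.sum_congr rfl fun i _ => key i, Finset.sum_comm]
  have h2 : ∀ m, ∑ i, τ.ρ (sp.j (c.b i) * b0 c sp (sp.j (c.b' i) * d.b m)) (α (τ.ρ (d.b' m) t)) =
      τ.ρ (d.b m) (α (τ.ρ (d.b' m) t)) := by
    intro m
    rw [← LinearMap.sum_apply, ← map_sum, b0_sum]
  rw [Finset.sum_congr rfl fun m _ => h2 m, hid]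

end Pool.Agent.PFC.B1.H15
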