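import Pool.Agent.PFC.StmtsB1

/-!
# Squad PFC, part B1, row UNI
-/

set_option autoImplicit false

namespace Pool.Agent.PFC.B1.H33

theorem uni : UniStmt := by
  intro F M _ _ _ _ u hu
  have hJ : Ideal.span {(PowerSeries.X : PowerSeries F)} ≤ Ideal.jacobson ⊥ := by
    rw [IsLocalRing.jacobson_eq_maximalIdeal ⊥ bot_ne_top, Ideal.span_le,
      Set.singleton_subset_iff, SetLike.mem_coe, IsLocalRing.mem_maximalIdeal, mem_nonunits_iff,
      PowerSeries.isUnit_iff_constantCoeff, PowerSeries.constantCoeff_X]
    exact not_isUnit_zero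
  have hsurj : Function.Surjective u := by
    rw [← LinearMap.range_eq_top]
    refine top_le_iff.1 (Submodule.le_of_le_smul_of_le_jacobson_bot
      (I := Ideal.span {(PowerSeries.X : PowerSeries F)}) Module.Finite.fg_top hJ ?_)
    intro x _
    obtain ⟨y, hy⟩ := hu x
    have e : x = u x + -((PowerSeries.X : PowerSeries F) • y) := by
      rw [← hy]
      abel
    rw [e]
    exact Submodule.add_mem_sup ⟨x, rfl⟩ (Submodule.neg_mem _
      (Submodule.smul_mem_smul (Ideal.mem_span_singleton_self _) Submodule.mem_top))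
  exact ⟨OrzechProperty.injective_of_surjective_endomorphism u hsurj, hsurj⟩

end Pool.Agent.PFC.B1.H33
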