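import Pool.Agent.PFC.StmtsB1

/-!
# Squad PFC, part B1, row USE
-/

set_option autoImplicit false

namespace Pool.Agent.PFC.B1.H65

open MulOpposite

section
variable {R Γ P I : Type} [CommRing R] [Ring Γ] [Algebra R Γ] [AddCommGroup P] [Module R P]
  [Fintype I]

theorem casL (hC : CasStmt) (B : BiM R Γ P) (c : FS R Γ I) (h : P →ₗ[R] P) (z : P) (γ : Γ) :
    ∑ i, B.lm (γ * c.b i) (h (B.lm (c.b' i) z)) =
      ∑ i, B.lm (c.b i) (h (B.lm (c.b' i * γ) z)) := by
  have h1 := hC R Γ I P c (LinearMap.mk₂ R (fun y y' => B.lm y (h (B.lm y' z)))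
    (fun a b d => by rw [map_add, LinearMap.add_apply])
    (fun r a d => by rw [map_smul, LinearMap.smul_apply])
    (fun a b d => by rw [map_add, LinearMap.add_apply, map_add, map_add])
    (fun r a d => by rw [map_smul, LinearMap.smul_apply, map_smul, map_smul])) γ
  exact h1

theorem casR (hC : CasStmt) (B : BiM R Γ P) (c : FS R Γ I) (h : P →ₗ[R] P) (z : P) (γ : Γ) :
    ∑ i, B.rm (op (c.b' i)) (h (B.rm (op (γ * c.b i)) z)) =
      ∑ i, B.rm (op (c.b' i * γ)) (h (B.rm (op (c.b i)) z)) := by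
  have h1 := hC R Γ I P c (LinearMap.mk₂ R (fun y y' => B.rm (op y') (h (B.rm (op y) z)))
    (fun a b d => by
      show B.rm (op d) (h (B.rm (op (a + b)) z)) = _
      rw [op_add, map_add, LinearMap.add_apply, map_add, map_add])
    (fun r a d => by
      show B.rm (op d) (h (B.rm (op (r • a)) z)) = _
      rw [op_smul, map_smul, LinearMap.smul_apply, map_smul, map_smul])
    (fun a b d => by
      show B.rm (op (b + d)) (h (B.rm (op a) z)) = _
      rw [op_add, map_add, LinearMap.add_apply])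
    (fun r a d => by
      show B.rm (op (r • d)) (h (B.rm (op a) z)) = _
      rw [op_smul, map_smul, LinearMap.smul_apply])) γ
  exact h1

end

/-- the two-sided trace -/
noncomputable def tt {R Γ P I : Type} [CommRing R] [Ring Γ] [Algebra R Γ] [AddCommGroup P]
    [Module R P] [Fintype I] (B : BiM R Γ P) (c : FS R Γ I) (a : P →ₗ[R] P) : P →ₗ[R] P :=
  ∑ i, ∑ l, (B.lm (c.b i)) ∘ₗ (B.rm (op (c.b' l))) ∘ₗ a ∘ₗ (B.lm (c.b' i)) ∘ₗ (B.rm (op (c.b l)))

theorem tt_apply {R Γ P I : Type} [CommRing R] [Ring Γ] [Algebra R Γ] [AddCommGroup P]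
    [Module R P] [Fintype I] (B : BiM R Γ P) (c : FS R Γ I) (a : P →ₗ[R] P) (x : P) :
    tt B c a x = ∑ i, ∑ l, B.lm (c.b i) (B.rm (op (c.b' l))
      (a (B.lm (c.b' i) (B.rm (op (c.b l)) x)))) := by
  rw [tt, LinearMap.sum_apply]
  refine Finset.sum_congr rfl fun i _ => ?_
  rw [LinearMap.sum_apply]
  rfl

theorem tt_lm (hC : CasStmt) {R Γ P I : Type} [CommRing R] [Ring Γ] [Algebra R Γ] [AddCommGroup P]
    [Module R P] [Fintype I] (B : BiM R Γ P) (c : FS R Γ I) (a : P →ₗ[R] P) (γ : Γ) (x : P) :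
    tt B c a (B.lm γ x) = B.lm γ (tt B c a x) := by
  rw [tt_apply, tt_apply, map_sum, Finset.sum_comm]
  have h2 : ∀ i, B.lm γ (∑ l, B.lm (c.b i) (B.rm (op (c.b' l))
      (a (B.lm (c.b' i) (B.rm (op (c.b l)) x))))) = ∑ l, B.lm (γ * c.b i) (B.rm (op (c.b' l))
      (a (B.lm (c.b' i) (B.rm (op (c.b l)) x)))) := by
    intro i
    rw [map_sum]
    refine Finset.sum_congr rfl fun l _ => ?_
    rw [map_mul]
    rfl
  rw [Finset.sum_congr rfl fun i _ => h2 i, Finset.sum_comm (s := Finset.univ (α := I))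
    (t := Finset.univ (α := I)) (f := fun i l => B.lm (γ * c.b i) (B.rm (op (c.b' l))
      (a (B.lm (c.b' i) (B.rm (op (c.b l)) x)))))]
  refine Finset.sum_congr rfl fun l _ => ?_
  have h3 := casL hC B c ((B.rm (op (c.b' l))) ∘ₗ a) (B.rm (op (c.b l)) x) γ
  refine Eq.trans (Finset.sum_congr rfl fun i _ => ?_) h3.symm
  rw [map_mul, Module.End.mul_apply, ← B.comm γ (op (c.b l)) x]
  rfl

theorem tt_rm (hC : CasStmt) {R Γ P I : Type} [CommRing R] [Ring Γ] [Algebra R Γ] [AddCommGroup P]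
    [Module R P] [Fintype I] (B : BiM R Γ P) (c : FS R Γ I) (a : P →ₗ[R] P) (γ : Γ) (x : P) :
    tt B c a (B.rm (op γ) x) = B.rm (op γ) (tt B c a x) := by
  rw [tt_apply, tt_apply, map_sum]
  refine Finset.sum_congr rfl fun i _ => ?_
  rw [map_sum]
  have h3 := casR hC B c (a ∘ₗ (B.lm (c.b' i))) x γ
  have h4 := congrArg (fun w => B.lm (c.b i) w) h3
  simp only [map_sum] at h4
  refine Eq.trans (Finset.sum_congr rfl fun l _ => ?_) (h4.trans
    (Finset.sum_congr rfl fun l _ => ?_))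
  · rw [op_mul, map_mul, Module.End.mul_apply]
    rfl
  · rw [op_mul, map_mul, Module.End.mul_apply, ← B.comm (c.b i) (op γ)]
    rfl

theorem use (hC : CasStmt) (hU : UniStmt) : UseStmt := by
  intro F Γ A I P _ _ _ _ _ _ _ _ c D _ _ _ _ L
  have h1 : ∀ x, ∃ y, tt L.toBiM c L.a' x - x = (PowerSeries.X : PowerSeries F) • y := by
    intro x
    apply L.q5
    rw [map_sub, sub_eq_zero, tt_apply]
    exact L.a'_id x
  have h2 := hU F P (tt L.toBiM c L.a') h1
  obtain ⟨w, hw⟩ : ∃ w : P ≃ₗ[PowerSeries F] P, ∀ x, w x = tt L.toBiM c L.a' x :=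
    ⟨LinearEquiv.ofBijective _ h2, fun x => rfl⟩
  have h5 : ∀ (f : P → P), (∀ x, tt L.toBiM c L.a' (f x) = f (tt L.toBiM c L.a' x)) →
      ∀ x, w.symm (f x) = f (w.symm x) := by
    intro f hf x
    rw [LinearEquiv.symm_apply_eq, hw, hf, ← hw, LinearEquiv.apply_symm_apply]
  refine ⟨L.a' ∘ₗ (w.symm : P →ₗ[PowerSeries F] P), fun x => ?_⟩
  have h6 : ∀ i l, (L.a' ∘ₗ (w.symm : P →ₗ[PowerSeries F] P))
      (L.lm (c.b' i) (L.rm (op (c.b l)) x)) =
      L.a' (L.lm (c.b' i) (L.rm (op (c.b l)) (w.symm x))) := by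
    intro i l
    show L.a' (w.symm (L.lm (c.b' i) (L.rm (op (c.b l)) x))) = _
    rw [h5 _ (tt_lm hC L.toBiM c L.a' (c.b' i)), h5 _ (tt_rm hC L.toBiM c L.a' (c.b l))]
  have h7 : ∑ i, ∑ l, L.lm (c.b i) (L.rm (op (c.b' l))
      ((L.a' ∘ₗ (w.symm : P →ₗ[PowerSeries F] P)) (L.lm (c.b' i) (L.rm (op (c.b l)) x)))) =
      tt L.toBiM c L.a' (w.symm x) := by
    rw [tt_apply]
    refine Finset.sum_congr rfl fun i _ => Finset.sum_congr rfl fun l _ => ?_
    rw [h6]
  rw [h7, ← hw, LinearEquiv.apply_symm_apply]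

end Pool.Agent.PFC.B1.H65
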