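import Pool.Agent.PFC.StmtsB1

/-!
# Squad PFC, part B1, row ZID
-/

set_option autoImplicit false

namespace Pool.Agent.PFC.B1.H29

open Pool.Agent.PFC.B1

/-- the Casimir identity for biadditive balanced maps -/
theorem casAdd {R A I X : Type} [CommRing R] [Ring A] [Algebra R A] [Fintype I] [AddCommGroup X]
    (c : FS R A I) (B : A →+ A →+ X) (hB : ∀ (r : R) x y, B (r • x) y = B x (r • y)) (x : A) :
    ∑ i, B (x * c.b i) (c.b' i) = ∑ i, B (c.b i) (c.b' i * x) := by
  have h1 : ∀ i, B (x * c.b i) (c.b' i) =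
      ∑ l, B (c.b l) (c.lam (c.b' l * x * c.b i) • c.b' i) := by
    intro i
    conv_lhs => rw [← c.h1 (x * c.b i)]
    rw [map_sum, AddMonoidHom.finsetSum_apply]
    refine Finset.sum_congr rfl fun l _ => ?_
    rw [hB, mul_assoc]
  rw [Finset.sum_congr rfl fun i _ => h1 i, Finset.sum_comm]
  refine Finset.sum_congr rfl fun l _ => ?_
  rw [← map_sum, c.h2]

section lift

variable {F Γ Γ0 A A' K T : Type} [Field F] [Ring Γ] [Algebra (PowerSeries F) Γ]
  [Ring Γ0] [Algebra F Γ0] [Ring A] [Algebra F A] [Ring A'] [Algebra (PowerSeries F) A']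
  [Fintype K] [AddCommGroup T]

/-- relative separability modulo `t` -/
theorem sepLift (f : Fib F Γ Γ0) (q : Fib F A' A) (j : Γ →ₐ[PowerSeries F] A') (j0 : Γ0 →+* A)
    (hj : ∀ γ, q.q (j γ) = j0 (f.q γ)) (sep : Sep Γ0 A K j0) (S : AddSubgroup T)
    (u v : K → A') (hu : ∀ k, q.q (u k) = sep.u k) (hv : ∀ k, q.q (v k) = sep.v k)
    (Φ : A' →+ A' →+ T)
    (h1 : ∀ x y, Φ ((PowerSeries.X : PowerSeries F) • x) y ∈ S)
    (h2 : ∀ x y, Φ x ((PowerSeries.X : PowerSeries F) • y) ∈ S)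
    (h3 : ∀ x γ y, Φ (x * j γ) y = Φ x (j γ * y)) (x : A') :
    ∑ k, Φ (x * u k) (v k) - ∑ k, Φ (u k) (v k * x) ∈ S := by
  classical
  have key : ∀ x x' y y', q.q x = q.q x' → q.q y = q.q y' →
      (QuotientAddGroup.mk (Φ x y) : T ⧸ S) = QuotientAddGroup.mk (Φ x' y') := by
    intro x x' y y' hx hy
    rw [QuotientAddGroup.eq]
    obtain ⟨a, ha⟩ := q.ker (x' - x) (by rw [map_sub, hx, sub_self])
    obtain ⟨b, hb⟩ := q.ker (y' - y) (by rw [map_sub, hy, sub_self])
    have e : -Φ x y + Φ x' y' = Φ (x' - x) y' + Φ x (y' - y) := by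
      simp only [map_sub, AddMonoidHom.sub_apply]
      abel
    rw [e, ha, hb]
    exact S.add_mem (h1 _ _) (h2 _ _)
  let l : A → A' := Function.surjInv q.surj
  have hl : ∀ a, q.q (l a) = a := Function.surjInv_eq q.surj
  let B : A →+ A →+ T ⧸ S := AddMonoidHom.mk' (fun a => AddMonoidHom.mk'
    (fun b => (QuotientAddGroup.mk (Φ (l a) (l b)) : T ⧸ S)) (by
      intro b b'
      rw [← QuotientAddGroup.mk_add, ← map_add]
      exact key _ _ _ _ rfl (by rw [map_add, hl, hl, hl]))) (by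
      intro a a'
      ext b
      show (QuotientAddGroup.mk (Φ (l (a + a')) (l b)) : T ⧸ S) =
        QuotientAddGroup.mk (Φ (l a) (l b)) + QuotientAddGroup.mk (Φ (l a') (l b))
      rw [← QuotientAddGroup.mk_add, ← AddMonoidHom.add_apply, ← map_add]
      exact key _ _ _ _ (by rw [map_add, hl, hl, hl]) rfl)
  have hB : ∀ x y, B (q.q x) (q.q y) = (QuotientAddGroup.mk (Φ x y) : T ⧸ S) := by
    intro x y
    show (QuotientAddGroup.mk (Φ (l (q.q x)) (l (q.q y))) : T ⧸ S) = _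
    exact key _ _ _ _ (hl _) (hl _)
  have hbal : ∀ (x : A) (γ : Γ0) (y : A), B (x * j0 γ) y = B x (j0 γ * y) := by
    intro x γ y
    obtain ⟨x', rfl⟩ := q.surj x
    obtain ⟨y', rfl⟩ := q.surj y
    obtain ⟨γ', rfl⟩ := f.surj γ
    rw [← hj, ← map_mul, ← map_mul, hB, hB, h3]
  have h := sep.bal (T ⧸ S) B hbal (q.q x)
  have e1 : ∀ k, B (q.q x * sep.u k) (sep.v k) =
      (QuotientAddGroup.mk (Φ (x * u k) (v k)) : T ⧸ S) := by
    intro k
    rw [← hu, ← hv, ← map_mul, hB]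
  have e2 : ∀ k, B (sep.u k) (sep.v k * q.q x) =
      (QuotientAddGroup.mk (Φ (u k) (v k * x)) : T ⧸ S) := by
    intro k
    rw [← hu, ← hv, ← map_mul, hB]
  rw [Finset.sum_congr rfl fun k _ => e1 k, Finset.sum_congr rfl fun k _ => e2 k] at h
  have h' : (QuotientAddGroup.mk' S) (∑ k, Φ (x * u k) (v k)) =
      (QuotientAddGroup.mk' S) (∑ k, Φ (u k) (v k * x)) := by
    rw [map_sum, map_sum]
    exact h
  rw [← sub_eq_zero, ← map_sub] at h'
  exact (QuotientAddGroup.eq_zero_iff _).1 h'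

end lift

section ops

variable {R Γ A' I k T : Type} [CommRing R] [Ring Γ] [Algebra R Γ] [Ring A'] [Algebra R A']
  [Fintype I] [CommRing k] [Algebra R k] [AddCommGroup T] [Module k T]

/-- the operator `b` -/
noncomputable def bop (c : FS R Γ I) (sp : Split c A') : A' →ₗ[R] A' :=
  ∑ i, (LinearMap.mulLeft R (sp.j (c.b i))) ∘ₗ sp.a ∘ₗ (LinearMap.mulLeft R (sp.j (c.b' i))) ∘ₗ
    (LinearMap.id - sp.j.toLinearMap ∘ₗ sp.pr)

theorem bop_apply (c : FS R Γ I) (sp : Split c A') (x : A') :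
    bop c sp x = ∑ i, sp.j (c.b i) * sp.a (sp.j (c.b' i) * (x - sp.j (sp.pr x))) := by
  simp [bop, LinearMap.sum_apply]

theorem bop_left (c : FS R Γ I) (sp : Split c A') (γ : Γ) (x : A') :
    bop c sp (sp.j γ * x) = sp.j γ * bop c sp x := by
  rw [bop_apply, bop_apply, sp.pr_l, map_mul, ← mul_sub]
  set y := x - sp.j (sp.pr x) with hy
  let B : Γ →+ Γ →+ A' := AddMonoidHom.mk' (fun p => AddMonoidHom.mk'
    (fun q => sp.j p * sp.a (sp.j q * y)) (by
      intro q q'
      rw [map_add, add_mul, map_add, mul_add])) (by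
      intro p p'
      ext q
      show sp.j (p + p') * sp.a (sp.j q * y) = sp.j p * sp.a (sp.j q * y) +
        sp.j p' * sp.a (sp.j q * y)
      rw [map_add, add_mul])
  have hB : ∀ (r : R) p q, B (r • p) q = B p (r • q) := by
    intro r p q
    show sp.j (r • p) * sp.a (sp.j q * y) = sp.j p * sp.a (sp.j (r • q) * y)
    rw [map_smul, map_smul, smul_mul_assoc, smul_mul_assoc, map_smul, mul_smul_comm]
  have h := casAdd c B hB γ
  have e1 : ∑ i, sp.j (c.b i) * sp.a (sp.j (c.b' i) * (sp.j γ * y)) =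
      ∑ i, B (c.b i) (c.b' i * γ) := by
    refine Finset.sum_congr rfl fun i _ => ?_
    show _ = sp.j (c.b i) * sp.a (sp.j (c.b' i * γ) * y)
    rw [map_mul sp.j, mul_assoc (sp.j (c.b' i))]
  rw [e1, ← h, Finset.mul_sum]
  refine Finset.sum_congr rfl fun i _ => ?_
  show sp.j (γ * c.b i) * sp.a (sp.j (c.b' i) * y) = _
  rw [map_mul sp.j, mul_assoc]

theorem bop_one (c : FS R Γ I) (sp : Split c A') : bop c sp 1 = 0 := by
  have h : sp.pr 1 = 1 := by
    have := sp.pr_j 1
    rwa [map_one] at this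
  rw [bop_apply, h, map_one, sub_self]
  simp

theorem bop_sum (c : FS R Γ I) (sp : Split c A') (x : A') :
    ∑ l, bop c sp (x * sp.j (c.b l)) * sp.j (c.b' l) = x - sp.j (sp.pr x) := by
  have h := sp.a_id (x - sp.j (sp.pr x))
  have h0 : sp.pr (x - sp.j (sp.pr x)) = 0 := by rw [map_sub, sp.pr_j, sub_self]
  rw [h0, map_zero, sub_zero] at h
  rw [← h, Finset.sum_comm]
  refine Finset.sum_congr rfl fun l _ => ?_
  rw [bop_apply, Finset.sum_mul]
  refine Finset.sum_congr rfl fun i _ => ?_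
  rw [sp.pr_r, map_mul sp.j, ← sub_mul]
  simp only [mul_assoc]

/-- composition with `b` on `QQ` -/
noncomputable def bq (c : FS R Γ I) (sp : Split c A') (τ : Rp R A' k T) :
    QQ sp.j τ →ₗ[k] QQ sp.j τ where
  toFun := fun w => ⟨fun x => w.1 (bop c sp x),
    fun x y => by
      show w.1 (bop c sp (x + y)) = _
      rw [map_add, w.2.1],
    fun γ x => by
      show w.1 (bop c sp (sp.j γ * x)) = _
      rw [bop_left, w.2.2.1],
    by
      show w.1 (bop c sp 1) = 0
      rw [bop_one]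
      have h := w.2.1 0 0
      rw [add_zero] at h
      exact left_eq_add.mp h⟩
  map_add' := fun _ _ => rfl
  map_smul' := fun _ _ => rfl

theorem qq_j {j : Γ →ₐ[R] A'} {τ : Rp R A' k T} (w : QQ j τ) (γ : Γ) : w.1 (j γ) = 0 := by
  have h := w.2.2.1 γ 1
  rw [mul_one, w.2.2.2, map_zero] at h
  exact h

theorem qq_sum {j : Γ →ₐ[R] A'} {τ : Rp R A' k T} (w : QQ j τ) {ι : Type} (s : Finset ι)
    (g : ι → A') : w.1 (∑ i ∈ s, g i) = ∑ i ∈ s, w.1 (g i) := by
  let φ : A' →+ T := AddMonoidHom.mk' w.1 w.2.1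
  exact map_sum φ g s

/-- the exact identity on `QQ` -/
theorem bq_id (c : FS R Γ I) (sp : Split c A') (τ : Rp R A' k T) (w : QQ sp.j τ) :
    ∑ i, (qqRp sp.j τ).ρ (sp.j (c.b i)) (bq c sp τ ((qqRp sp.j τ).ρ (sp.j (c.b' i)) w)) = w := by
  apply Subtype.ext
  funext x
  have h1 : ∀ i, ((qqRp sp.j τ).ρ (sp.j (c.b i))
      (bq c sp τ ((qqRp sp.j τ).ρ (sp.j (c.b' i)) w))).1 x =
      w.1 (bop c sp (x * sp.j (c.b i)) * sp.j (c.b' i)) := by
    intro i
    show (w.1 (bop c sp (x * sp.j (c.b i)) * sp.j (c.b' i)) -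
      τ.ρ (bop c sp (x * sp.j (c.b i))) (w.1 (sp.j (c.b' i)))) -
      τ.ρ x ((bq c sp τ ((qqRp sp.j τ).ρ (sp.j (c.b' i)) w)).1 (sp.j (c.b i))) = _
    rw [qq_j, qq_j, map_zero, map_zero, sub_zero, sub_zero]
  have h2 : (∑ i, (qqRp sp.j τ).ρ (sp.j (c.b i))
      (bq c sp τ ((qqRp sp.j τ).ρ (sp.j (c.b' i)) w))).1 x =
      ∑ i, ((qqRp sp.j τ).ρ (sp.j (c.b i))
      (bq c sp τ ((qqRp sp.j τ).ρ (sp.j (c.b' i)) w))).1 x := by
    simp [Finset.sum_apply]
  rw [h2, Finset.sum_congr rfl fun i _ => h1 i, ← qq_sum, bop_sum]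
  have e : x = (x - sp.j (sp.pr x)) + sp.j (sp.pr x) := by abel
  conv_rhs => rw [e, w.2.1, qq_j, add_zero]

end ops

theorem zid : ZidStmt := by
  classical
  intro F Γ Γ0 A A' I I0 J' K _ _ _ _ _ _ _ _ _ _ _ _ _ c c0 f sp0 sep D
  choose u hu using fun k => D.fb.surj (sep.u k)
  choose v hv using fun k => D.fb.surj (sep.v k)
  let z : A' := ∑ k, ∑ i, D.d.lam (D.sp.j (c.b' i) * v k) • (u k * D.sp.j (c.b i))
  refine ⟨z, bop c D.sp, bop_left c D.sp, bop_one c D.sp, ?_⟩
  intro k T _ _ _ _ τ a ha g x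
  set ρ := (qqRp D.sp.j τ).ρ with hρ
  -- the operator `a`
  have ha' : ∀ h : QQ D.sp.j τ, a h = ρ z (bq c D.sp τ h) := by
    intro h
    apply Subtype.ext
    funext y
    rw [ha]
    rfl
  have hsm : ∀ (r : PowerSeries F) (p : A') (w : QQ D.sp.j τ),
      ρ (r • p) w = algebraMap (PowerSeries F) k r • ρ p w := by
    intro r p w
    rw [Algebra.smul_def, map_mul, Module.End.mul_apply]
    exact (qqRp D.sp.j τ).sc r _
  -- evaluation at `x`
  let ev : QQ D.sp.j τ →ₗ[k] T :=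
    { toFun := fun w => w.1 x
      map_add' := fun _ _ => rfl
      map_smul' := fun _ _ => rfl }
  let S : Submodule k T :=
    LinearMap.range (algebraMap (PowerSeries F) k PowerSeries.X • (LinearMap.id : T →ₗ[k] T))
  have hS : ∀ y : T, y ∈ S.toAddSubgroup →
      ∃ y', y = algebraMap (PowerSeries F) k PowerSeries.X • y' := by
    rintro y ⟨y', rfl⟩
    exact ⟨y', rfl⟩
  have hS' : ∀ y : T, algebraMap (PowerSeries F) k PowerSeries.X • y ∈ S.toAddSubgroup :=
    fun y => ⟨y, rfl⟩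
  apply hS
  -- the biadditive map
  let Φ : QQ D.sp.j τ → A' →+ A' →+ T := fun w => AddMonoidHom.mk' (fun p => AddMonoidHom.mk'
    (fun q => ∑ i, algebraMap (PowerSeries F) k (D.d.lam (D.sp.j (c.b' i) * q)) •
      ev (ρ (p * D.sp.j (c.b i)) w)) (by
      intro q q'
      rw [← Finset.sum_add_distrib]
      refine Finset.sum_congr rfl fun i _ => ?_
      rw [mul_add, map_add, map_add, add_smul])) (by
      intro p p'
      ext q
      show ∑ i, algebraMap (PowerSeries F) k (D.d.lam (D.sp.j (c.b' i) * q)) •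
        ev (ρ ((p + p') * D.sp.j (c.b i)) w) =
        ∑ i, algebraMap (PowerSeries F) k (D.d.lam (D.sp.j (c.b' i) * q)) •
        ev (ρ (p * D.sp.j (c.b i)) w) +
        ∑ i, algebraMap (PowerSeries F) k (D.d.lam (D.sp.j (c.b' i) * q)) •
        ev (ρ (p' * D.sp.j (c.b i)) w)
      rw [← Finset.sum_add_distrib]
      refine Finset.sum_congr rfl fun i _ => ?_
      rw [add_mul, map_add, LinearMap.add_apply, map_add, smul_add])
  have hΦ : ∀ w p q, Φ w p q = ∑ i, algebraMap (PowerSeries F) k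
      (D.d.lam (D.sp.j (c.b' i) * q)) • ev (ρ (p * D.sp.j (c.b i)) w) := fun _ _ _ => rfl
  have hsep : ∀ w y, ∑ l, Φ w (y * u l) (v l) - ∑ l, Φ w (u l) (v l * y) ∈ S.toAddSubgroup := by
    intro w y
    refine sepLift f D.fb D.sp.j sp0.j.toRingHom D.cj sep S.toAddSubgroup u v hu hv (Φ w)
      ?_ ?_ ?_ y
    · intro p q
      have e : Φ w ((PowerSeries.X : PowerSeries F) • p) q =
          algebraMap (PowerSeries F) k PowerSeries.X • Φ w p q := by
        rw [hΦ, hΦ, Finset.smul_sum]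
        refine Finset.sum_congr rfl fun i _ => ?_
        rw [smul_mul_assoc, hsm, map_smul, smul_comm]
      rw [e]
      exact hS' _
    · intro p q
      have e : Φ w p ((PowerSeries.X : PowerSeries F) • q) =
          algebraMap (PowerSeries F) k PowerSeries.X • Φ w p q := by
        rw [hΦ, hΦ, Finset.smul_sum]
        refine Finset.sum_congr rfl fun i _ => ?_
        rw [mul_smul_comm, map_smul, smul_eq_mul, map_mul, mul_smul]
      rw [e]
      exact hS' _
    · intro p γ q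
      let B : Γ →+ Γ →+ T := AddMonoidHom.mk' (fun s => AddMonoidHom.mk'
        (fun s' => algebraMap (PowerSeries F) k (D.d.lam (D.sp.j s' * q)) •
          ev (ρ (p * D.sp.j s) w)) (by
          intro s s'
          rw [map_add, add_mul, map_add, map_add, add_smul])) (by
          intro s s'
          ext s''
          show algebraMap (PowerSeries F) k (D.d.lam (D.sp.j s'' * q)) •
            ev (ρ (p * D.sp.j (s + s')) w) =
            algebraMap (PowerSeries F) k (D.d.lam (D.sp.j s'' * q)) • ev (ρ (p * D.sp.j s) w) +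
            algebraMap (PowerSeries F) k (D.d.lam (D.sp.j s'' * q)) • ev (ρ (p * D.sp.j s') w)
          rw [map_add, mul_add, map_add, LinearMap.add_apply, map_add, smul_add])
      have hB : ∀ (r : PowerSeries F) s s', B (r • s) s' = B s (r • s') := by
        intro r s s'
        show algebraMap (PowerSeries F) k (D.d.lam (D.sp.j s' * q)) •
            ev (ρ (p * D.sp.j (r • s)) w) =
            algebraMap (PowerSeries F) k (D.d.lam (D.sp.j (r • s') * q)) •
              ev (ρ (p * D.sp.j s) w)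
        rw [map_smul, map_smul, mul_smul_comm, hsm, map_smul, smul_mul_assoc, map_smul,
          smul_eq_mul, map_mul (algebraMap (PowerSeries F) k), mul_smul, smul_comm]
      have h := casAdd c B hB γ
      rw [hΦ, hΦ]
      have e1 : ∀ i, algebraMap (PowerSeries F) k (D.d.lam (D.sp.j (c.b' i) * q)) •
          ev (ρ (p * D.sp.j γ * D.sp.j (c.b i)) w) = B (γ * c.b i) (c.b' i) := by
        intro i
        show _ = algebraMap (PowerSeries F) k (D.d.lam (D.sp.j (c.b' i) * q)) •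
          ev (ρ (p * D.sp.j (γ * c.b i)) w)
        rw [map_mul D.sp.j, mul_assoc]
      have e2 : ∀ i, algebraMap (PowerSeries F) k
          (D.d.lam (D.sp.j (c.b' i) * (D.sp.j γ * q))) •
          ev (ρ (p * D.sp.j (c.b i)) w) = B (c.b i) (c.b' i * γ) := by
        intro i
        show _ = algebraMap (PowerSeries F) k (D.d.lam (D.sp.j (c.b' i * γ) * q)) •
          ev (ρ (p * D.sp.j (c.b i)) w)
        rw [map_mul D.sp.j, mul_assoc]
      rw [Finset.sum_congr rfl fun i _ => e1 i, Finset.sum_congr rfl fun i _ => e2 i, h]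
  -- the trace
  have htr : (D.d.tr (qqRp D.sp.j τ) (qqRp D.sp.j τ) a g).1 x =
      ∑ m, ∑ l, Φ (bq c D.sp τ (ρ (D.d.b' m) g)) (D.d.b m * u l) (v l) := by
    have e0 : (D.d.tr (qqRp D.sp.j τ) (qqRp D.sp.j τ) a g) =
        ∑ m, ρ (D.d.b m) (a (ρ (D.d.b' m) g)) := by
      simp [FS.tr, LinearMap.sum_apply, hρ]
    have e1 : (D.d.tr (qqRp D.sp.j τ) (qqRp D.sp.j τ) a g).1 x =
        ev (∑ m, ρ (D.d.b m) (a (ρ (D.d.b' m) g))) := by
      rw [← e0]
      rfl
    rw [e1, map_sum]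
    refine Finset.sum_congr rfl fun m _ => ?_
    rw [ha', ← Module.End.mul_apply, ← map_mul]
    have e2 : D.d.b m * z = ∑ l, ∑ i, D.d.lam (D.sp.j (c.b' i) * v l) •
        (D.d.b m * u l * D.sp.j (c.b i)) := by
      simp only [z, Finset.mul_sum]
      refine Finset.sum_congr rfl fun l _ => Finset.sum_congr rfl fun i _ => ?_
      rw [mul_smul_comm, mul_assoc]
    rw [e2, map_sum, LinearMap.sum_apply, map_sum]
    refine Finset.sum_congr rfl fun l _ => ?_
    rw [map_sum, LinearMap.sum_apply, map_sum, hΦ]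
    refine Finset.sum_congr rfl fun i _ => ?_
    rw [hsm, map_smul]
  -- the sum after the exchange
  have hex : ∑ m, ∑ l, Φ (bq c D.sp τ (ρ (D.d.b' m) g)) (u l) (v l * D.d.b m) =
      ev (ρ (∑ l, u l * v l) g) := by
    rw [Finset.sum_comm, map_sum, LinearMap.sum_apply, map_sum]
    refine Finset.sum_congr rfl fun l _ => ?_
    have e1 : ∀ m, Φ (bq c D.sp τ (ρ (D.d.b' m) g)) (u l) (v l * D.d.b m) =
        ∑ i, ev (ρ (u l * D.sp.j (c.b i)) (bq c D.sp τ
          (ρ (D.d.lam (D.sp.j (c.b' i) * v l * D.d.b m) • D.d.b' m) g))) := by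
      intro m
      rw [hΦ]
      refine Finset.sum_congr rfl fun i _ => ?_
      rw [hsm, map_smul, map_smul, map_smul, mul_assoc]
    rw [Finset.sum_congr rfl fun m _ => e1 m, Finset.sum_comm]
    have e2 : ∀ i, ∑ m, ev (ρ (u l * D.sp.j (c.b i)) (bq c D.sp τ
          (ρ (D.d.lam (D.sp.j (c.b' i) * v l * D.d.b m) • D.d.b' m) g))) =
        ev (ρ (u l) (ρ (D.sp.j (c.b i)) (bq c D.sp τ (ρ (D.sp.j (c.b' i)) (ρ (v l) g))))) := by
      intro i
      rw [← map_sum, ← map_sum, ← map_sum, ← LinearMap.sum_apply, ← map_sum, D.d.h2]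
      rw [map_mul, map_mul]
      rfl
    rw [Finset.sum_congr rfl fun i _ => e2 i, ← map_sum, ← map_sum, hρ, bq_id, ← hρ, map_mul]
    rfl
  obtain ⟨y, hy⟩ := D.fb.ker (∑ l, u l * v l - 1) (by
    rw [map_sub, map_sum, map_one, ← sep.one, sub_eq_zero]
    refine Finset.sum_congr rfl fun l _ => ?_
    rw [map_mul, hu, hv])
  have hfin : ev (ρ (∑ l, u l * v l) g) - g.1 x ∈ S.toAddSubgroup := by
    have e : ∑ l, u l * v l = 1 + (PowerSeries.X : PowerSeries F) • y := by
      rw [← hy]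
      abel
    have e' : ev (ρ (∑ l, u l * v l) g) - g.1 x =
        algebraMap (PowerSeries F) k PowerSeries.X • ev (ρ y g) := by
      rw [e, map_add, LinearMap.add_apply, map_one, map_add, hsm, map_smul]
      show g.1 x + _ - g.1 x = _
      abel
    rw [e']
    exact hS' _
  have hsum : ∑ m, ∑ l, Φ (bq c D.sp τ (ρ (D.d.b' m) g)) (D.d.b m * u l) (v l) -
      ∑ m, ∑ l, Φ (bq c D.sp τ (ρ (D.d.b' m) g)) (u l) (v l * D.d.b m) ∈ S.toAddSubgroup := by
    rw [← Finset.sum_sub_distrib]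
    exact AddSubgroup.sum_mem _ fun m _ => hsep _ _
  rw [htr]
  rw [hex] at hsum
  have := S.toAddSubgroup.add_mem hsum hfin
  rwa [sub_add_sub_cancel] at this

end Pool.Agent.PFC.B1.H29
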